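import Pool.Agent.Helper71.FX.St
import Pool.Agent.Helper5.Wav.NF
import Pool.Agent.Helper40.Wav.NH
import Pool.Agent.Helper26.Wav.NB

/-!
# Project FX, module ZO: the Fourier transforms of the wavelet vanish at the origin
-/

set_option autoImplicit false

open MeasureTheory Filter Topology
open scoped FourierTransform RealInnerProductSpace Matrix ComplexConjugate ENNReal

noncomputable section

namespace Pool.Agent.Helper37.FX

open Wav Pool.Agent.Helper71.FX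

/-- the indicator function of the unit ball -/
private def gg (n : ℕ) : E n → ℂ := (Metric.ball (0 : E n) 1).indicator fun _ => 1

private theorem gg_memLp (n : ℕ) (p : ℝ≥0∞) : MemLp (gg n) p (volume : Measure (E n)) := by
  unfold gg
  exact memLp_indicator_const p measurableSet_ball 1 (Or.inr measure_ball_lt_top.ne)

private theorem gg_cases (n : ℕ) (x : E n) : (x ∈ Metric.ball (0 : E n) 1 ∧ gg n x = 1) ∨
    (x ∉ Metric.ball (0 : E n) 1 ∧ gg n x = 0) := by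
  by_cases h : x ∈ Metric.ball (0 : E n) 1
  · exact Or.inl ⟨h, by unfold gg; rw [Set.indicator_of_mem h]⟩
  · exact Or.inr ⟨h, by unfold gg; rw [Set.indicator_of_notMem h]⟩

private theorem gg_int (n : ℕ) : ∫⁻ ξ : E n, ‖gg n ξ‖ₑ ^ 2 = volume (Metric.ball (0 : E n) 1) := by
  rw [← lintegral_indicator_one measurableSet_ball]
  refine lintegral_congr fun ξ => ?_
  rcases gg_cases n ξ with ⟨h1, h2⟩ | ⟨h1, h2⟩
  · rw [h2, Set.indicator_of_mem h1]
    simp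
  · rw [h2, Set.indicator_of_notMem h1]
    simp

private theorem lower {n : ℕ} {A : Matrix (Fin n) (Fin n) ℝ} (hA : A.det ≠ 0) {Ψ : E n → ℂ}
    (hΨ : Continuous Ψ) {C : ℝ} (hC : ∀ ξ, ‖Ψ ξ‖ ≤ C) (j : ℤ)
    (hsep : ∀ (x : E n) (m : Fin n → ℤ), act (Aᵀ ^ j) x ∈ Metric.ball (0 : E n) 1 →
      act (Aᵀ ^ j) (x + ivec m) ∈ Metric.ball (0 : E n) 1 → m = 0)
    {a : ℝ} (ha : 0 ≤ a)
    (hlow : ∀ x : E n, act (Aᵀ ^ j) x ∈ Metric.ball (0 : E n) 1 → a ≤ ‖Ψ x‖) :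
    ENNReal.ofReal a ^ 2 * volume (Metric.ball (0 : E n) 1) ≤
      ∑' k : Fin n → ℤ, ‖∫ ξ, conj (faff A Ψ j k ξ) * gg n ξ‖ₑ ^ 2 := by
  have hu : IsUnit A.det := isUnit_iff_ne_zero.2 hA
  have hBdet : (Aᵀ).det ≠ 0 := by rwa [Matrix.det_transpose]
  have huB : IsUnit (Aᵀ).det := isUnit_iff_ne_zero.2 hBdet
  have hBj : (Aᵀ ^ j).det ≠ 0 := (huB.det_zpow j).ne_zero
  have hD : 0 < |A.det| := abs_pos.2 hA
  have hdetj : |(Aᵀ ^ j).det| = |A.det| ^ (j : ℝ) := by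
    rw [det_zpow' hBdet, Matrix.det_transpose, abs_zpow, Real.rpow_intCast]
  have htr : (A ^ (-j))ᵀ = Aᵀ ^ (-j) := by rw [Matrix.transpose_zpow]
  have hinv : ∀ x : E n, act (Aᵀ ^ (-j)) (act (Aᵀ ^ j) x) = x := by
    intro x
    rw [← act_mul, Matrix.zpow_neg_mul_zpow_self _ huB, act_one]
  set c : ℝ := |A.det| ^ ((j : ℝ) / 2) with hc
  have hc0 : 0 < c := by positivity
  set F : (Fin n → ℝ) → ℂ := fun x =>
    (c : ℂ) * conj (Ψ (WithLp.toLp 2 x)) * gg n (act (Aᵀ ^ j) (WithLp.toLp 2 x)) with hF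
  have hmp := PiLp.volume_preserving_toLp (Fin n)
  have hint : ∀ k : Fin n → ℤ, ∫ ξ, conj (faff A Ψ j k ξ) * gg n ξ = ∫ x, chr k x * F x := by
    intro k
    have e2 := integral_act hBj (fun ξ => conj (faff A Ψ j k ξ) * gg n ξ)
    have e3 : ∫ ξ, conj (faff A Ψ j k ξ) * gg n ξ =
        ((|(Aᵀ ^ j).det| : ℝ) : ℂ) * ∫ x, conj (faff A Ψ j k (act (Aᵀ ^ j) x)) *
          gg n (act (Aᵀ ^ j) x) := by
      rw [e2, ← mul_assoc, ← Complex.ofReal_mul, mul_inv_cancel₀ (abs_ne_zero.2 hBj)]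
      simp
    rw [e3, ← integral_const_mul, ← hmp.integral_comp
      (MeasurableEquiv.toLp 2 (Fin n → ℝ)).measurableEmbedding]
    refine integral_congr_ae (Filter.Eventually.of_forall fun x => ?_)
    simp only [faff, hF, chr_eq_ee]
    rw [htr, hinv, inner_act, htr, hinv, hdetj]
    simp only [map_mul, ee_conj, Complex.conj_ofReal, neg_neg]
    have e4 : ((|A.det| ^ (j : ℝ) : ℝ) : ℂ) * ((|A.det| ^ (-(j : ℝ) / 2) : ℝ) : ℂ) = (c : ℂ) := by
      rw [← Complex.ofReal_mul, hc, ← Real.rpow_add hD]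
      congr 2
      ring
    rw [← e4]
    ring
  have hgL : ∀ p : ℝ≥0∞, MemLp (fun x : Fin n → ℝ => gg n (act (Aᵀ ^ j) (WithLp.toLp 2 x))) p
      volume := by
    intro p
    have h2 : MemLp (gg n) p (Measure.map (act (Aᵀ ^ j)) volume) := by
      rw [map_act hBj]
      exact (gg_memLp n p).smul_measure ENNReal.ofReal_ne_top
    have h3 : MemLp (fun x : E n => gg n (act (Aᵀ ^ j) x)) p volume :=
      (act_emb hBj).memLp_map_measure_iff.1 h2
    exact h3.comp_measurePreserving hmp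
  have hΨm : AEStronglyMeasurable (fun x : Fin n → ℝ => (c : ℂ) * conj (Ψ (WithLp.toLp 2 x)))
      volume := by
    have h1 : Continuous (fun x : Fin n → ℝ => (c : ℂ) * conj (Ψ (WithLp.toLp 2 x))) :=
      continuous_const.mul (Complex.continuous_conj.comp (hΨ.comp (PiLp.continuous_toLp 2 _)))
    exact h1.aestronglyMeasurable
  have hΨb : ∀ x : Fin n → ℝ, ‖(c : ℂ) * conj (Ψ (WithLp.toLp 2 x))‖ ≤ c * C := by
    intro x
    rw [norm_mul, Complex.norm_conj, Complex.norm_real, Real.norm_of_nonneg hc0.le]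
    exact mul_le_mul_of_nonneg_left (hC _) hc0.le
  have hFint : Integrable F := by
    have h1 := memLp_one_iff_integrable.1 (hgL 1)
    exact h1.bdd_mul (c := c * C) hΨm (Filter.Eventually.of_forall hΨb)
  have hF2 : MemLp F 2 volume := by
    refine MemLp.of_le_mul (c := c * C) (hgL 2) (hΨm.mul (hgL 2).aestronglyMeasurable) ?_
    refine Filter.Eventually.of_forall fun x => ?_
    rw [hF]
    simp only [norm_mul]
    have h1 := hΨb x
    rw [norm_mul] at h1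
    exact mul_le_mul_of_nonneg_right h1 (norm_nonneg _)
  -- the supports of the translates are disjoint
  have hone : ∀ x : Fin n → ℝ, ∃ m0 : Fin n → ℤ, ∀ m, m ≠ m0 → F (x + zv m) = 0 := by
    intro x
    by_cases hex : ∃ m0 : Fin n → ℤ, act (Aᵀ ^ j) (WithLp.toLp 2 (x + zv m0)) ∈
        Metric.ball (0 : E n) 1
    · obtain ⟨m0, hm0⟩ := hex
      refine ⟨m0, fun m hm => ?_⟩
      rcases gg_cases n (act (Aᵀ ^ j) (WithLp.toLp 2 (x + zv m))) with ⟨h1, h2⟩ | ⟨h1, h2⟩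
      · exfalso
        apply hm
        have e1 : (WithLp.toLp 2 (x + zv m) : E n) = WithLp.toLp 2 (x + zv m0) + ivec (m - m0) := by
          ext i
          simp [ivec, zv]
        rw [e1] at h1
        exact sub_eq_zero.1 (hsep _ _ hm0 h1)
      · rw [hF]
        simp only
        rw [h2, mul_zero]
    · refine ⟨0, fun m _ => ?_⟩
      rcases gg_cases n (act (Aᵀ ^ j) (WithLp.toLp 2 (x + zv m))) with ⟨h1, h2⟩ | ⟨h1, h2⟩
      · exact absurd ⟨m, h1⟩ hex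
      · rw [hF]
        simp only
        rw [h2, mul_zero]
  have hper : ∀ x, ‖per F x‖ₑ ^ 2 = per (fun y => ‖F y‖ₑ ^ 2) x := by
    intro x
    obtain ⟨m0, hm0⟩ := hone x
    unfold per
    rw [tsum_eq_single m0 hm0, tsum_eq_single m0]
    intro m hm
    change ‖F (x + zv m)‖ₑ ^ 2 = 0
    rw [hm0 m hm]
    simp
  have hFm : AEStronglyMeasurable F volume := hFint.aestronglyMeasurable
  have hGm : AEMeasurable (fun y => ‖F y‖ₑ ^ 2) volume := hFm.enorm.pow_const 2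
  have hcube : ∫⁻ x in cube (Fin n), ‖per F x‖ₑ ^ 2 = ∫⁻ x, ‖F x‖ₑ ^ 2 := by
    rw [← lintegral_per hGm]
    exact lintegral_congr fun x => hper x
  have hfin : ∫⁻ x, ‖F x‖ₑ ^ 2 < ∞ := by
    have := hF2.eLpNorm_lt_top
    rw [eLpNorm_lt_top_iff_lintegral_rpow_enorm_lt_top (by norm_num) (by norm_num)] at this
    simpa using this
  have hperm : AEStronglyMeasurable (per F) (volume.restrict (cube (Fin n))) := by
    unfold per
    exact (AEMeasurable.tsum fun m =>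
      (aesm_shift hFm m).aemeasurable.restrict).aestronglyMeasurable
  have hperL2 : MemLp (per F) 2 (volume.restrict (cube (Fin n))) := by
    refine ⟨hperm, ?_⟩
    rw [eLpNorm_lt_top_iff_lintegral_rpow_enorm_lt_top (by norm_num) (by norm_num)]
    simp only [ENNReal.toReal_ofNat, ENNReal.rpow_two]
    rw [hcube]
    exact hfin
  have hP := parseval_per hFint hperL2
  have hPint : Integrable (fun x => ‖per F x‖ ^ 2) (volume.restrict (cube (Fin n))) :=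
    (memLp_two_iff_integrable_sq_norm hperm).1 hperL2
  simp_rw [hint]
  have e5 : ∀ k : Fin n → ℤ, ‖∫ x, chr k x * F x‖ₑ ^ 2 =
      ENNReal.ofReal (‖∫ x, chr k x * F x‖ ^ 2) := by
    intro k
    rw [← ofReal_norm, ENNReal.ofReal_pow (norm_nonneg _)]
  simp_rw [e5]
  rw [← ENNReal.ofReal_tsum_of_nonneg (fun k => by positivity) hP.summable, hP.tsum_eq,
    ofReal_integral_eq_lintegral_ofReal hPint (Filter.Eventually.of_forall fun x => by positivity)]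
  have e6 : ∫⁻ x in cube (Fin n), ENNReal.ofReal (‖per F x‖ ^ 2) = ∫⁻ x, ‖F x‖ₑ ^ 2 := by
    rw [← hcube]
    refine lintegral_congr fun x => ?_
    rw [ENNReal.ofReal_pow (norm_nonneg _), ofReal_norm]
  rw [e6]
  -- the lower bound
  have hcD : ‖(c : ℂ)‖ₑ ^ 2 * ENNReal.ofReal |((Aᵀ ^ j).det)⁻¹| = 1 := by
    rw [enorm_eq_nnnorm, ← ENNReal.coe_pow]
    have e1 : ((‖(c : ℂ)‖₊ ^ 2 : NNReal) : ℝ≥0∞) = ENNReal.ofReal (c ^ 2) := by
      rw [ENNReal.ofReal]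
      congr 1
      apply NNReal.eq
      rw [Real.coe_toNNReal _ (by positivity)]
      simp
    rw [e1, ← ENNReal.ofReal_mul (by positivity), abs_inv, hdetj, hc, ← Real.rpow_natCast,
      ← Real.rpow_mul hD.le, ← Real.rpow_neg hD.le, ← Real.rpow_add hD]
    have : (j : ℝ) / 2 * (2 : ℕ) + -(j : ℝ) = 0 := by push_cast; ring
    rw [this]
    simp
  have hGint : ∫⁻ x : Fin n → ℝ, (‖(c : ℂ)‖ₑ * ‖gg n (act (Aᵀ ^ j) (WithLp.toLp 2 x))‖ₑ) ^ 2 =
      ∫⁻ ξ, ‖gg n ξ‖ₑ ^ 2 := by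
    have e1 : ∫⁻ x : Fin n → ℝ,
        (‖(c : ℂ)‖ₑ * ‖gg n (act (Aᵀ ^ j) (WithLp.toLp 2 x))‖ₑ) ^ 2 =
        ∫⁻ x : E n, (‖(c : ℂ)‖ₑ * ‖gg n (act (Aᵀ ^ j) x)‖ₑ) ^ 2 :=
      hmp.lintegral_comp_emb (MeasurableEquiv.toLp 2 (Fin n → ℝ)).measurableEmbedding
        (fun x : E n => (‖(c : ℂ)‖ₑ * ‖gg n (act (Aᵀ ^ j) x)‖ₑ) ^ 2)
    rw [e1, lintegral_act hBj (fun ξ => (‖(c : ℂ)‖ₑ * ‖gg n ξ‖ₑ) ^ 2)]
    simp_rw [mul_pow]
    rw [lintegral_const_mul' _ _ (by simp), ← mul_assoc, mul_comm (ENNReal.ofReal _), hcD, one_mul]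
  rw [← gg_int, ← hGint, ← lintegral_const_mul' _ _ (by simp)]
  refine lintegral_mono fun x => ?_
  rw [hF]
  simp only [enorm_mul]
  rcases gg_cases n (act (Aᵀ ^ j) (WithLp.toLp 2 x)) with ⟨h1, h2⟩ | ⟨h1, h2⟩
  · have h3 := hlow _ h1
    have h4 : ENNReal.ofReal a ≤ ‖conj (Ψ (WithLp.toLp 2 x))‖ₑ := by
      rw [← ofReal_norm, Complex.norm_conj]
      exact ENNReal.ofReal_le_ofReal h3
    calc ENNReal.ofReal a ^ 2 * (‖(c : ℂ)‖ₑ * ‖gg n (act (Aᵀ ^ j) (WithLp.toLp 2 x))‖ₑ) ^ 2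
        = (ENNReal.ofReal a * (‖(c : ℂ)‖ₑ * ‖gg n (act (Aᵀ ^ j) (WithLp.toLp 2 x))‖ₑ)) ^ 2 := by
          rw [mul_pow (ENNReal.ofReal a)]
      _ ≤ (‖conj (Ψ (WithLp.toLp 2 x))‖ₑ *
          (‖(c : ℂ)‖ₑ * ‖gg n (act (Aᵀ ^ j) (WithLp.toLp 2 x))‖ₑ)) ^ 2 := by gcongr
      _ = _ := by ring
  · rw [h2]
    simp

theorem pZO : StZO := by
  intro n L N A ψ hg l
  have hA : A.det ≠ 0 := expansive_det hg.exp
  have hint : ∀ l, Integrable (ψ l) := fun l => (hg.loc l).integrable hg.big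
  have hL2 : ∀ l, MemLp (ψ l) 2 volume := fun l => (hg.loc l).memLp
  by_contra hne
  obtain ⟨C, hC0, hC⟩ := (hg.loc l).fourier_bound hg.big
  have hcont : Continuous (𝓕 (ψ l)) := N2Aux.fourier_cont (hint l)
  have hN0 : 0 ≤ N := le_trans (Nat.cast_nonneg n) hg.big.le
  have hCb : ∀ ξ, ‖𝓕 (ψ l) ξ‖ ≤ C := by
    intro ξ
    refine (hC ξ).trans ?_
    have h1 : (1 + ‖ξ‖) ^ (-N) ≤ 1 :=
      Real.rpow_le_one_of_one_le_of_nonpos (by linarith [norm_nonneg ξ]) (by linarith)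
    nlinarith
  set a : ℝ := ‖𝓕 (ψ l) 0‖ / 2 with ha
  have ha0 : 0 < a := by
    have := norm_pos_iff.2 hne
    positivity
  obtain ⟨δ, hδ, hδa⟩ : ∃ δ : ℝ, 0 < δ ∧ ∀ ξ : E n, ‖ξ‖ < δ → a ≤ ‖𝓕 (ψ l) ξ‖ := by
    have h1 : ∀ᶠ ξ in 𝓝 (0 : E n), a < ‖𝓕 (ψ l) ξ‖ := by
      apply (hcont.norm.tendsto 0).eventually_const_lt
      rw [ha]
      have := norm_pos_iff.2 hne
      linarith
    obtain ⟨δ, hδ, h2⟩ := Metric.eventually_nhds_iff.1 h1
    refine ⟨δ, hδ, fun ξ hξ => ?_⟩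
    exact (h2 (by rwa [dist_zero_right])).le
  obtain ⟨K, ρ, hK, hρ, hgr⟩ := growth_pos hg.exp
  have hρ0 : 0 < ρ := by linarith
  obtain ⟨j1, hj1⟩ : ∃ j1 : ℕ, ∀ m : ℕ, j1 ≤ m → K * ρ ^ (-(m : ℤ)) < min δ (1 / 2) := by
    have h1 : Tendsto (fun m : ℕ => K * (ρ⁻¹) ^ m) atTop (𝓝 (K * 0)) :=
      (tendsto_pow_atTop_nhds_zero_of_lt_one (by positivity) (inv_lt_one_of_one_lt₀ hρ)).const_mul K
    rw [mul_zero] at h1
    have h2 := h1.eventually_lt_const (show 0 < min δ (1 / 2) from lt_min hδ (by norm_num))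
    obtain ⟨j1, h3⟩ := eventually_atTop.1 h2
    refine ⟨j1, fun m hm => ?_⟩
    have h4 := h3 m hm
    rwa [inv_pow, ← zpow_natCast, ← zpow_neg] at h4
  have hBdet : (Aᵀ).det ≠ 0 := by rwa [Matrix.det_transpose]
  have huB : IsUnit (Aᵀ).det := isUnit_iff_ne_zero.2 hBdet
  have hsmall : ∀ m : ℕ, j1 ≤ m → ∀ x : E n, act (Aᵀ ^ (m : ℤ)) x ∈ Metric.ball (0 : E n) 1 →
      ‖x‖ < min δ (1 / 2) := by
    intro m hm x hx
    have h1 := hgr (m : ℤ) (by positivity) (act (Aᵀ ^ (m : ℤ)) x)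
    rw [← act_mul, Matrix.zpow_neg_mul_zpow_self _ huB, act_one] at h1
    rw [mem_ball_zero_iff] at hx
    have h2 : 0 < K * ρ ^ (-(m : ℤ)) := by positivity
    calc ‖x‖ ≤ K * ρ ^ (-(m : ℤ)) * ‖act (Aᵀ ^ (m : ℤ)) x‖ := h1
      _ ≤ K * ρ ^ (-(m : ℤ)) * 1 := mul_le_mul_of_nonneg_left hx.le h2.le
      _ = K * ρ ^ (-(m : ℤ)) := mul_one _
      _ < _ := hj1 m hm
  have hlow : ∀ m : ℕ, j1 ≤ m →
      ENNReal.ofReal a ^ 2 * volume (Metric.ball (0 : E n) 1) ≤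
        ∑' k : Fin n → ℤ, ‖∫ ξ, conj (faff A (𝓕 (ψ l)) (m : ℤ) k ξ) * gg n ξ‖ₑ ^ 2 := by
    intro m hm
    apply lower hA hcont hCb (m : ℤ) _ ha0.le
    · intro x hx
      exact hδa x ((hsmall m hm x hx).trans_le (min_le_left _ _))
    · intro x k hx hxk
      have h1 := (hsmall m hm x hx).trans_le (min_le_right _ _)
      have h2 := (hsmall m hm _ hxk).trans_le (min_le_right _ _)
      have h3 : ‖(ivec k : E n)‖ < 1 := by
        have e1 : (ivec k : E n) = (x + ivec k) - x := by abel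
        rw [e1]
        refine (norm_sub_le _ _).trans_lt ?_
        linarith
      funext i
      have h4 : |((k i : ℤ) : ℝ)| < 1 := by
        have h5 := PiLp.norm_apply_le (ivec k : E n) i
        have h6 : (ivec k : E n) i = ((k i : ℤ) : ℝ) := rfl
        rw [h6, Real.norm_eq_abs] at h5
        linarith
      have h7 : |k i| < 1 := by exact_mod_cast h4
      exact Int.abs_lt_one_iff.1 h7
  -- Bessel
  obtain ⟨b, hb⟩ := (transfer hA hint hL2).1 hg.on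
  have hgm := gg_memLp n 2
  have hbes := parseval_enorm b (hgm.toLp (gg n))
  have hin : ∀ (l' : Fin L) (j : ℤ) (k : Fin n → ℤ),
      inner ℂ (b (l', j, k)) (hgm.toLp (gg n)) =
        ∫ ξ, conj (faff A (𝓕 (ψ l')) j k ξ) * gg n ξ := by
    intro l' j k
    rw [inner_eq_int]
    apply integral_congr_ae
    filter_upwards [hb l' j k, hgm.coeFn_toLp] with ξ h1 h2
    rw [h1, h2]
  have hinj : Function.Injective
      (fun q : ℕ × (Fin n → ℤ) => (l, ((j1 + q.1 : ℕ) : ℤ), q.2)) := by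
    rintro ⟨m, k⟩ ⟨m', k'⟩ h
    simp only [Prod.mk.injEq, true_and] at h
    have h1 : j1 + m = j1 + m' := by exact_mod_cast h.1
    exact Prod.ext (by simpa using h1) h.2
  have h1 : ∑' q : ℕ × (Fin n → ℤ),
      ‖inner ℂ (b (l, ((j1 + q.1 : ℕ) : ℤ), q.2)) (hgm.toLp (gg n))‖ₑ ^ 2 ≤
      ∑' i, ‖inner ℂ (b i) (hgm.toLp (gg n))‖ₑ ^ 2 :=
    ENNReal.tsum_comp_le_tsum_of_injective hinj
      (fun i => ‖inner ℂ (b i) (hgm.toLp (gg n))‖ₑ ^ 2)
  rw [hbes, ENNReal.tsum_prod'] at h1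
  have h2 : ∑' _ : ℕ, (ENNReal.ofReal a ^ 2 * volume (Metric.ball (0 : E n) 1)) ≤
      ∑' m : ℕ, ∑' k : Fin n → ℤ,
        ‖inner ℂ (b (l, ((j1 + m : ℕ) : ℤ), k)) (hgm.toLp (gg n))‖ₑ ^ 2 := by
    refine ENNReal.tsum_le_tsum fun m => ?_
    simp_rw [hin]
    exact hlow (j1 + m) (Nat.le_add_right _ _)
  have h3 : ENNReal.ofReal a ^ 2 * volume (Metric.ball (0 : E n) 1) ≠ 0 := by
    apply mul_ne_zero
    · exact pow_ne_zero 2 (by simpa using ha0)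
    · exact (Metric.measure_ball_pos volume (0 : E n) one_pos).ne'
  rw [ENNReal.tsum_const_eq_top_of_ne_zero h3] at h2
  have h4 : (⊤ : ℝ≥0∞) ≤ ‖hgm.toLp (gg n)‖ₑ ^ 2 := h2.trans h1
  have h5 : ‖hgm.toLp (gg n)‖ₑ ^ 2 < ⊤ := by
    rw [← ofReal_norm]
    exact ENNReal.pow_lt_top ENNReal.ofReal_lt_top
  exact absurd h5 (not_lt.2 h4)

end Pool.Agent.Helper37.FX
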